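import Pool.Agent.H345.ED.CNDA1
import Pool.Graph.R_pool_sql_team_seeded_3997aac3.Q275.EX.Dih
import Pool.Graph.R_pool_sql_team_seeded_3997aac3.Q275.EX.Res
import Pool.Graph.R_pool_sql_team_seeded_3997aac3.Q111.EX.Trv2A
import Pool.Graph.R_pool_sql_team_seeded_3997aac3.Q38.EX.NrmB
import Pool.Graph.R_pool_sql_team_seeded_3997aac3.Q285.EX.Triv
import Pool.Graph.R_pool_sql_team_seeded_3997aac3.Q285.EX.Ncg
import Pool.Graph.R_pool_sql_team_seeded_3997aac3.Q92.AR.All

/-!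
# Project ED (helper500), part A1: the tame conductor
-/

set_option autoImplicit false
set_option linter.unusedSectionVars false
set_option linter.deprecated false

namespace Pool.Agent.H345.ED.CNDA

open NumberField IsDedekindDomain Pool.Agent.Q5.BR Pool.Agent.Q92.AR Pool.Agent.Q20.EX
open Pool.Agent.Q53.EX (inert_eq_one inert_restrict TrivAt_mono prin_mem_Pr_of_Un Pr_mono
  art_infl CongAt_mono unr0)
open Pool.Agent.Q125.AR (Ram_mono mem_under)
open Pool.Agent.Q280.AR (under_under)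

/-- **The main step.** -/
theorem core (K M F Ω : Type) [Field K] [NumberField K] [Field M] [NumberField M] [Field F]
    [NumberField F] [Field Ω] [NumberField Ω] [Algebra K M] [Algebra K F] [Algebra K Ω]
    [Algebra F Ω] [Algebra M Ω] [IsScalarTower K F Ω] [IsScalarTower K M Ω] [IsGalois K M]
    [IsGalois K Ω] (ψ : (M ≃ₐ[K] M) →* ℂˣ) (N' A n : ℕ) (χ : Dv K →+ Additive ℂˣ)
    (hN' : N' ≠ 0) (hA : A ≠ 0) (hn : 0 < n) (hR : Ram K M N')
    (hχ : ∀ D ∈ Pr K N', art ψ D = χ D) (hray : ∀ x ∈ Ray K A, χ (prin x) = 0)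
    (v : HeightOneSpectrum (𝓞 K)) (hvA : (A : 𝓞 K) ∉ v.asIdeal) (hvn : (n : 𝓞 K) ∉ v.asIdeal)
    (ζ a b : F) (r s : Ω) (hζ : IsPrimitiveRoot ζ n)
    (hgen : ∀ f g : F →ₐ[K] Ω, f ζ = g ζ → f = g) (ha0 : a ≠ 0) (hb0 : b ≠ 0)
    (hr : r ^ n = algebraMap F Ω b) (hs : s ^ n = algebraMap F Ω a)
    (ha1 : ∀ u : HeightOneSpectrum (𝓞 F), u.under (𝓞 K) = v → u.valuation F a = 1)
    (ha2 : ∀ u : HeightOneSpectrum (𝓞 F), u.under (𝓞 K) ≠ v → (N' : 𝓞 F) ∈ u.asIdeal →
        u.valuation F (b / a - 1) < u.valuation F (n : F) ^ 2)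
    (hkum : ∀ g : Ω ≃ₐ[K] Ω, (∀ x : F, g (algebraMap F Ω x) = algebraMap F Ω x) → g r = r →
      ψ (AlgEquiv.restrictNormal g M) = 1) :
    ∀ (W : HeightOneSpectrum (𝓞 Ω)) (g : Ω ≃ₐ[K] Ω), W.under (𝓞 K) = v → Inert W g →
      ψ (AlgEquiv.restrictNormal g M) = 1 := by
  classical
  have hζΩ : IsPrimitiveRoot (algebraMap F Ω ζ) n :=
    hζ.map_of_injective (algebraMap F Ω).injective
  have hs0 : s ≠ 0 := by
    rintro rfl
    rw [zero_pow hn.ne'] at hs
    exact ha0 ((map_eq_zero (algebraMap F Ω)).1 hs.symm)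
  have hr0 : r ≠ 0 := by
    rintro rfl
    rw [zero_pow hn.ne'] at hr
    exact hb0 ((map_eq_zero (algebraMap F Ω)).1 hr.symm)
  have hval : ∀ (W : HeightOneSpectrum (𝓞 Ω)) (x : F), W.valuation Ω (algebraMap F Ω x) =
      (W.under (𝓞 F)).valuation F x ^ ((W.under (𝓞 F)).asIdeal.ramificationIdx' W.asIdeal) :=
    fun W x => Pool.Agent.TeamU.val_over (Pool.Agent.Q38.EX.over_of_under W _ rfl) x
  -- the subgroup
  let H : Subgroup (Ω ≃ₐ[K] Ω) :=
    { carrier := {g | (∀ x : F, g (algebraMap F Ω x) = algebraMap F Ω x) ∧ g s = s}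
      mul_mem' := by
        rintro g h ⟨hg1, hg2⟩ ⟨hh1, hh2⟩
        refine ⟨fun x => ?_, ?_⟩
        · rw [AlgEquiv.mul_apply, hh1, hg1]
        · rw [AlgEquiv.mul_apply, hh2, hg2]
      one_mem' := ⟨fun _ => rfl, rfl⟩
      inv_mem' := by
        rintro g ⟨hg1, hg2⟩
        refine ⟨fun x => ?_, ?_⟩
        · apply g.injective
          rw [← AlgEquiv.mul_apply, mul_inv_cancel, AlgEquiv.one_apply, hg1]
        · apply g.injective
          rw [← AlgEquiv.mul_apply, mul_inv_cancel, AlgEquiv.one_apply, hg2] }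
  let F1 : IntermediateField K Ω := IntermediateField.fixedField H
  have hfix : F1.fixingSubgroup = H := IntermediateField.fixingSubgroup_fixedField H
  have hGal : IsGalois F1 Ω := IsGalois.tower_top_of_isGalois K F1 Ω
  let ψΩ : (Ω ≃ₐ[K] Ω) →* ℂˣ := ψ.comp (AlgEquiv.restrictNormalHom (K₁ := Ω) M)
  let θ : (Ω ≃ₐ[F1] Ω) →* ℂˣ := ψΩ.comp (rs K F1 Ω)
  have hlift : ∀ g ∈ H, ∃ g1 : Ω ≃ₐ[F1] Ω, rs K F1 Ω g1 = g := by
    intro g hg
    have hg' : g ∈ F1.fixingSubgroup := by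
      rw [hfix]
      exact hg
    rw [IntermediateField.mem_fixingSubgroup_iff] at hg'
    exact ⟨{ (g : Ω ≃ₐ[K] Ω) with commutes' := fun x => hg' x.1 x.2 }, rfl⟩
  have hmemH : ∀ g1 : Ω ≃ₐ[F1] Ω, rs K F1 Ω g1 ∈ H := by
    intro g1
    rw [← hfix, IntermediateField.mem_fixingSubgroup_iff]
    intro x hx
    exact g1.commutes ⟨x, hx⟩
  -- inertia elements above `v`
  have hE2 : ∀ (W : HeightOneSpectrum (𝓞 Ω)) (g : Ω ≃ₐ[K] Ω), W.under (𝓞 K) = v → Inert W g →
      g ∈ H := by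
    intro W g hW hg
    have hnW : (n : 𝓞 Ω) ∉ W.asIdeal := by
      intro h
      apply hvn
      rw [← hW]
      change algebraMap (𝓞 K) (𝓞 Ω) (n : 𝓞 K) ∈ W.asIdeal
      rwa [map_natCast]
    have h1 : g (algebraMap F Ω ζ) = algebraMap F Ω ζ := by
      apply unit_fix hg hnW
      · exact Pool.Agent.Q38.EX.val_root (W.valuation Ω) hn hζΩ.pow_eq_one
      · rw [hζΩ.pow_eq_one, map_one]
    have h2 : ∀ x : F, g (algebraMap F Ω x) = algebraMap F Ω x := by
      have h3 := hgen ((g : Ω →ₐ[K] Ω).comp (IsScalarTower.toAlgHom K F Ω))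
        (IsScalarTower.toAlgHom K F Ω) h1
      intro x
      exact DFunLike.congr_fun h3 x
    refine ⟨h2, ?_⟩
    apply unit_fix hg hnW
    · have h4 : W.valuation Ω s ^ n = 1 := by
        rw [← map_pow, hs, hval, ha1 _ (by rw [under_under K F Ω, hW]), one_pow]
      exact (pow_eq_one_iff.1 h4).resolve_right hn.ne'
    · rw [hs, h2]
  -- inertia elements at the other primes
  have hE1 : ∀ (W : HeightOneSpectrum (𝓞 Ω)) (g : Ω ≃ₐ[F1] Ω), W.under (𝓞 K) ≠ v → Inert W g →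
      θ g = 1 := by
    intro W g hW hg
    have hgi : Inert W (rs K F1 Ω g) := hg
    have hgH := hmemH g
    change ψ (AlgEquiv.restrictNormal (rs K F1 Ω g) M) = 1
    by_cases hNW : (N' : 𝓞 Ω) ∈ W.asIdeal
    · apply hkum _ hgH.1
      have he : (W.under (𝓞 F)).asIdeal.ramificationIdx' W.asIdeal ≠ 0 := by
        intro h0
        have h1 := hval W (0 : F)
        rw [map_zero, map_zero, map_zero, h0, pow_zero] at h1
        exact zero_ne_one h1
      have h3 : rs K F1 Ω g (r / s) = r / s := by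
        apply near_fix hgi hn hζΩ (hgH.1 ζ) (div_ne_zero hr0 hs0)
        · rw [div_pow, hr, hs, ← map_div₀, hgH.1]
        · have e1 : (r / s) ^ n - 1 = algebraMap F Ω (b / a - 1) := by
            rw [div_pow, hr, hs, map_sub, map_div₀, map_one]
          have e2 : (n : Ω) = algebraMap F Ω (n : F) := (map_natCast _ n).symm
          rw [e1, e2, hval, hval, ← pow_mul, mul_comm _ 2, pow_mul]
          refine pow_lt_pow_left₀ (ha2 _ ?_ ?_) zero_le he
          · rwa [under_under K F Ω]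
          · exact mem_under.2 hNW
      have h4 : r = r / s * s := (div_mul_cancel₀ r hs0).symm
      rw [h4, map_mul, h3, hgH.2]
    · have hu : Unramified M (W.under (𝓞 K)) := by
        by_contra h
        exact hNW (mem_under.1 (hR _ h))
      have h5 : AlgEquiv.restrictNormal (rs K F1 Ω g) M = 1 :=
        inert_eq_one (w := W.under (𝓞 M)) (by rwa [under_under K M Ω]) (inert_restrict hgi)
      rw [h5, map_one]
  -- the moduli
  obtain ⟨N1, hN1, hR1, hr1, ht1⟩ := (Pool.Agent.Q111.EX.trv2_of recip) Pool.Agent.Q38.EX.nrm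
    Pool.Agent.Q285.EX.triv F1 Ω θ
  obtain ⟨N2, hN2, hR2⟩ := Pool.Agent.Q280.AR.rF K Ω
  obtain ⟨N3, hN3d⟩ : ∃ N3, N3 = N1 * N2 * (N' * A) := ⟨_, rfl⟩
  have hN3 : N3 ≠ 0 := by
    rw [hN3d]
    exact mul_ne_zero (mul_ne_zero hN1 hN2) (mul_ne_zero hN' hA)
  have d1 : N1 ∣ N3 := ⟨N2 * (N' * A), by rw [hN3d]; ring⟩
  have d2 : N2 ∣ N3 := ⟨N1 * (N' * A), by rw [hN3d]; ring⟩
  have d' : N' ∣ N3 := ⟨N1 * N2 * A, by rw [hN3d]; ring⟩
  have dA : A ∣ N3 := ⟨N1 * N2 * N', by rw [hN3d]; ring⟩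
  clear hN3d
  have hR3 : Ram K Ω N3 := Ram_mono d2 hR2
  have hRF : Ram F1 Ω N3 := Ram_mono d1 hR1
  have hRamSet : ∀ u ∈ RamSet θ, u.under (𝓞 K) = v := by
    rintro u ⟨W, hW, g, hg, hne⟩
    by_contra h
    refine hne (hE1 W g ?_ hg)
    rw [← under_under K F1 Ω, hW]
    exact h
  have htriv : TrivAt Set.univ N3 (art θ) := by
    intro x hxU hxP _
    obtain ⟨z, hzU, hzP, hzc, hyU, hyP, hyc⟩ := Pool.Agent.Q275.EX.split_at hN3
      {u : HeightOneSpectrum (𝓞 F1) | u.under (𝓞 K) = v} hxU hxP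
    have e0 : prin x = prin z + prin (x / z) := by
      rw [prin_div]
      abel
    have t1 : art θ (prin (x / z)) = 0 := by
      refine TrivAt_mono d1 ht1 _ hyU hyP ?_
      rw [compl_compl]
      intro u hu hN
      exact hyc u (hRamSet u hu) hN
    have t2 : art θ (prin z) = 0 := by
      rw [Pool.Agent.Q275.EX.res K F1 Ω ψΩ N3 hN3 hR3 (prin z) (prin_mem_Pr_of_Un hzU),
        Pool.Agent.Q106.AR.nm_prin]
      have h1 : prin (nu K F1 z) ∈ Pr K N3 :=
        prin_mem_Pr_of_Un (Pool.Agent.Q275.EX.un_nu hzU)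
      rw [art_infl Pool.Agent.Q225.AR.fr K M Ω hR3 ψ ψΩ (fun g => rfl) h1,
        hχ _ (Pr_mono d' h1)]
      refine hray _ ⟨?_, Pool.Agent.Q275.EX.pos_nu hzP⟩
      intro u hu
      have huv : u ≠ v := by
        rintro rfl
        exact hvA hu
      have hmem : ∀ {L : Type} [Field L] [NumberField L] (y : HeightOneSpectrum (𝓞 L)),
          (A : 𝓞 L) ∈ y.asIdeal → (N3 : 𝓞 L) ∈ y.asIdeal := by
        intro L _ _ y hy
        obtain ⟨k, rfl⟩ := dA
        rw [Nat.cast_mul]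
        exact y.asIdeal.mul_mem_right _ hy
      have h2 := Pool.Agent.Q275.EX.nm_cong_at (x := z) hN3 u (fun w hw => hzc w
        (fun h => huv (by rw [← hw]; exact h)) (hmem w (mem_under.1 (by rw [hw]; exact hu))))
      refine h2.trans ?_
      obtain ⟨k, rfl⟩ := dA
      rw [Nat.cast_mul, map_mul]
      have h3 : u.valuation K (k : K) ≤ 1 := by
        have h4 := u.valuation_le_one (K := K) (k : 𝓞 K)
        simpa using h4
      exact mul_le_of_le_one_right' h3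
    rw [e0, map_add, t1, t2, add_zero]
  have hunr := unr0 Pool.Agent.Q285.EX.ncg F1 Ω θ N3 hN3 hRF htriv
  intro W g hW hg
  obtain ⟨g1, hg1⟩ := hlift g (hE2 W g hW hg)
  have h1 : Inert W g1 := by
    intro x
    have h2 := hg x
    rw [← hg1] at h2
    exact h2
  have h2 := hunr W g1 h1
  rw [← hg1]
  exact h2

/-- The tame conductor. -/
theorem cnda (K M : Type) [Field K] [NumberField K] [Field M] [NumberField M] [Algebra K M]
  [IsGalois K M] (ψ : (M ≃ₐ[K] M) →* ℂˣ) (N' A n : ℕ) (χ : Dv K →+ Additive ℂˣ) (hN' : N' ≠ 0)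
  (hA : A ≠ 0) (hn : 0 < n) (hR : Ram K M N') (hχ : ∀ D ∈ Pr K N', art ψ D = χ D)
  (hray : ∀ x ∈ Ray K A, χ (prin x) = 0) (hψ : ∀ g, ψ g ^ n = 1)
  (v : HeightOneSpectrum (𝓞 K)) (hvA : (A : 𝓞 K) ∉ v.asIdeal)
  (hvn : (n : 𝓞 K) ∉ v.asIdeal) (w : HeightOneSpectrum (𝓞 M)) (g : M ≃ₐ[K] M)
  (hw : w.under (𝓞 K) = v)
  (hg : ∀ x : 𝓞 M, w.valuation M (g (x : M) - (x : M)) < 1) : ψ g = 1 := by
  obtain ⟨F, Ω, _, _, _, _, _, _, _, _, _, _, _, ζ, a, b, r, s, hζ, hgen, ha0, hb0, hr, hs, ha1,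
    ha2, hkum⟩ := exists_big K M ψ hn hψ v hN'
  have hcore := core K M F Ω ψ N' A n χ hN' hA hn hR hχ hray v hvA hvn ζ a b r s hζ hgen ha0 hb0
    hr hs ha1 ha2 hkum
  let E : IntermediateField K M := IntermediateField.fixedField ψ.ker
  have hfix : E.fixingSubgroup = ψ.ker := IntermediateField.fixingSubgroup_fixedField ψ.ker
  have hGE : IsGalois K E := IsGalois.of_fixedField_normal_subgroup ψ.ker
  have hu : Unramified E v := by
    refine Pool.Agent.Q111.EX.unram_of_inert (M := Ω) v fun W hW G hG x => ?_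
    have h1 := hcore W G hW hG
    have h2 : AlgEquiv.restrictNormal G M ∈ E.fixingSubgroup := by
      rw [hfix]
      exact h1
    rw [IntermediateField.mem_fixingSubgroup_iff] at h2
    change G (algebraMap M Ω (x : M)) = algebraMap M Ω (x : M)
    rw [← AlgEquiv.restrictNormal_commutes, h2 x.1 x.2]
  have h3 : AlgEquiv.restrictNormal g E = 1 := by
    refine inert_eq_one (w := w.under (𝓞 E)) ?_ (inert_restrict (w := w) (g := g) hg)
    rw [under_under K E M, hw]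
    exact hu
  have h4 : g ∈ E.fixingSubgroup := by
    rw [IntermediateField.mem_fixingSubgroup_iff]
    intro x hx
    have h5 := AlgEquiv.restrictNormal_commutes g E ⟨x, hx⟩
    rw [h3] at h5
    exact h5.symm
  rw [hfix] at h4
  exact h4

end Pool.Agent.H345.ED.CNDA
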