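import Pool.Agent.H500.ED.Stm
import Pool.Agent.H345.ED.CNDAm

/-!
# Project ED (helper500), part A1: the statement
-/

set_option autoImplicit false

namespace Pool.Agent.H345.ED.CNDA

theorem main : Pool.Agent.H500.ED.S_CNDA := by
  intro K M _ _ _ _ _ _ ψ N' A n χ hN' hA hn hR hχ hray hψ v hvA hvn w g hw hg
  exact cnda K M ψ N' A n χ hN' hA hn hR hχ hray hψ v hvA hvn w g hw hg

end Pool.Agent.H345.ED.CNDA
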