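import Pool.Graph.R_pool_sql_team_seeded_3997aac3.Q16.EX.Kum
import Pool.Graph.R_pool_sql_team_seeded_3997aac3.Q38.EX.Spl
import Pool.Graph.R_pool_sql_team_seeded_3997aac3.Q285.EX.Apx
import Pool.Graph.R_pool_sql_team_seeded_3997aac3.Q53.EX.UnrE

/-!
# Project ED (helper500), part A1: local lemmas, Kummer generators, approximation
-/

set_option autoImplicit false
set_option linter.unusedSectionVars false
set_option linter.deprecated false

namespace Pool.Agent.H345.ED.CNDA

open NumberField IsDedekindDomain Pool.Agent.Q5.BR Pool.Agent.Q92.AR Pool.Agent.Q20.EX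
open Pool.Agent.TeamU (act act_one act_mul mem_act val_act val_act')

section
variable {F M : Type} [Field F] [NumberField F] [Field M] [NumberField M] [Algebra F M]

theorem inert_smul {w : HeightOneSpectrum (𝓞 M)} {g : M ≃ₐ[F] M} (hg : Inert w g) (x : 𝓞 M) :
    g • x - x ∈ w.asIdeal :=
  (w.valuation_lt_one_iff_mem (K := M) (g • x - x)).1 (hg x)

/-- inertia elements are in the decomposition group -/
theorem inert_act {w : HeightOneSpectrum (𝓞 M)} {g : M ≃ₐ[F] M} (hg : Inert w g) :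
    act g w = w := by
  apply HeightOneSpectrum.ext
  refine (w.isMaximal.eq_of_le (act g w).isPrime.ne_top ?_).symm
  intro x hx
  rw [mem_act]
  set y := (RingOfIntegers.mapRingEquiv g.toRingEquiv).symm x with hy
  have h := inert_smul hg y
  have h2 : g • y = x := by
    apply RingOfIntegers.ext
    change g (y : M) = (x : M)
    have h3 : (RingOfIntegers.mapRingEquiv g.toRingEquiv) y = x := by
      rw [hy, RingEquiv.apply_symm_apply]
    exact congrArg (fun z : 𝓞 M => (z : M)) h3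
  rw [h2] at h
  have h4 : y = x - (x - y) := by ring
  rw [h4]
  exact w.asIdeal.sub_mem hx h

theorem inert_val_eq {w : HeightOneSpectrum (𝓞 M)} {g : M ≃ₐ[F] M} (hg : Inert w g) (x : M) :
    w.valuation M (g x) = w.valuation M x := by
  have h := val_act g w x
  rwa [inert_act hg] at h

/-- inertia elements fix the `n`-th roots of the elements very near to `1` -/
theorem near_fix {w : HeightOneSpectrum (𝓞 M)} {g : M ≃ₐ[F] M} (hg : Inert w g) {n : ℕ}
    (hn : 0 < n) {ζ : M} (hζ : IsPrimitiveRoot ζ n) (hgζ : g ζ = ζ) {τ : M} (hτ0 : τ ≠ 0)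
    (hτ : g (τ ^ n) = τ ^ n)
    (hlt : w.valuation M (τ ^ n - 1) < w.valuation M (n : M) ^ 2) : g τ = τ := by
  have hn0 : (n : M) ≠ 0 := Nat.cast_ne_zero.2 (by omega)
  obtain ⟨θ, hθ, hle⟩ := Pool.Agent.Q38.EX.exists_root_near (w.valuation M) hn hζ τ
  have hWn : w.valuation M (n : M) ≠ 0 := (Valuation.ne_zero_iff _).2 hn0
  have hWn1 : w.valuation M (n : M) ≤ 1 := by
    have := w.valuation_le_one (K := M) (n : 𝓞 M)
    simpa using this
  have hm : w.valuation M (τ - θ) < w.valuation M (n : M) := by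
    by_contra h
    push Not at h
    have h2 : w.valuation M (n : M) * w.valuation M (n : M) ≤
      w.valuation M (τ - θ) * w.valuation M (n : M) := mul_le_mul_left h _
    rw [← sq] at h2
    exact absurd (h2.trans hle) (not_le.2 hlt)
  have hWs : w.valuation M τ = 1 := by
    have h1 : w.valuation M (τ ^ n - 1) < 1 := hlt.trans_le (pow_le_one' hWn1 2)
    have h2 : w.valuation M (τ ^ n) = 1 := by
      have h3 := Valuation.map_add_eq_of_lt_right (w.valuation M) (x := τ ^ n - 1) (y := 1)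
        (by rwa [map_one])
      rw [sub_add_cancel, map_one] at h3
      exact h3
    rw [map_pow] at h2
    exact (pow_eq_one_iff.1 h2).resolve_right (by omega)
  have hgr : (g τ / τ) ^ n = 1 := by
    rw [div_pow, ← map_pow, hτ, div_self (pow_ne_zero _ hτ0)]
  have hgθ : g θ = θ := by
    have : NeZero n := ⟨by omega⟩
    obtain ⟨i, -, hi⟩ := hζ.eq_pow_of_pow_eq_one hθ
    rw [← hi, map_pow, hgζ]
  have h1 : w.valuation M (g τ / τ * τ - θ) = w.valuation M (τ - θ) := by
    rw [← inert_val_eq hg (τ - θ), map_sub g τ θ, hgθ, div_mul_cancel₀ _ hτ0]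
  have h2 : w.valuation M (g τ / τ - 1) < w.valuation M (n : M) := by
    have h3 : (g τ / τ - 1) * τ = (g τ / τ * τ - θ) - (τ - θ) := by ring
    have h4 : w.valuation M (g τ / τ - 1) = w.valuation M ((g τ / τ - 1) * τ) := by
      rw [map_mul, hWs, mul_one]
    rw [h4, h3]
    refine (Valuation.map_sub _ _ _).trans_lt ?_
    rw [h1, max_self]
    exact hm
  have h3 : g τ / τ = 1 := by
    by_contra h4
    exact absurd (Pool.Agent.Q38.EX.val_root_sub_one (w.valuation M) hn hζ hgr h4) (not_le.2 h2)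
  rwa [div_eq_one_iff_eq hτ0] at h3

/-- inertia elements above a prime not dividing `n` fix the `n`-th roots of units -/
theorem unit_fix {w : HeightOneSpectrum (𝓞 M)} {g : M ≃ₐ[F] M} (hg : Inert w g) {n : ℕ}
    (hwn : (n : 𝓞 M) ∉ w.asIdeal) {s : M} (hs : w.valuation M s = 1)
    (hgs : g (s ^ n) = s ^ n) : g s = s := by
  have hs0 : s ≠ 0 := by
    rintro rfl
    rw [map_zero] at hs
    exact zero_ne_one hs
  have hwn1 : w.valuation M (n : M) = 1 := by
    have h2 := (w.valuation_eq_one_iff_notMem (K := M) (r := (n : 𝓞 M))).2 hwn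
    rwa [map_natCast] at h2
  have hc1 : (g s / s) ^ n = 1 := by
    rw [div_pow, ← map_pow, hgs, div_self (pow_ne_zero _ hs0)]
  have hc2 : w.valuation M (g s / s - 1) < 1 := by
    have h1 : g s / s - 1 = (g s - s) / s := by
      rw [sub_div, div_self hs0]
    rw [h1, map_div₀, hs, div_one]
    exact Pool.Agent.Q16.EX.inertia_val (inert_smul hg) hs.le
  have h1 := Pool.Agent.Q16.EX.root_eq_one hwn1 hc1 hc2
  rwa [div_eq_one_iff_eq hs0] at h1

end

/-- **Kummer generators.** -/
theorem kummer {F M : Type} [Field F] [NumberField F] [Field M] [Algebra F M]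
    [FiniteDimensional F M] [IsGalois F M] {n : ℕ} (hn : 0 < n) {ζ : F} (hζ : IsPrimitiveRoot ζ n)
    (ψ : (M ≃ₐ[F] M) →* ℂˣ) (hψ : ∀ g, ψ g ^ n = 1) :
    ∃ (r : M) (b : F), r ≠ 0 ∧ b ≠ 0 ∧ r ^ n = algebraMap F M b ∧
      ∀ g : M ≃ₐ[F] M, g r = r → ψ g = 1 := by
  have hnz : NeZero n := ⟨hn.ne'⟩
  obtain ⟨ι⟩ : Nonempty (F →+* ℂ) := inferInstance
  -- the roots of unity of `ℂ` come from `F`
  have hroot : ∀ g, ∃ c : Fˣ, c ^ n = 1 ∧ ι (c : F) = (ψ g : ℂ) := by
    intro g
    have h1 : (ψ g : ℂ) ^ n = 1 := by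
      rw [← Units.val_pow_eq_pow_val, hψ g, Units.val_one]
    obtain ⟨i, -, hi⟩ := (hζ.map_of_injective ι.injective).eq_pow_of_pow_eq_one h1
    refine ⟨(Units.mk0 ζ (hζ.ne_zero hn.ne')) ^ i, ?_, ?_⟩
    · rw [← pow_mul, mul_comm, pow_mul]
      have h2 : (Units.mk0 ζ (hζ.ne_zero hn.ne')) ^ n = 1 := by
        apply Units.ext
        rw [Units.val_pow_eq_pow_val, Units.val_mk0, hζ.pow_eq_one, Units.val_one]
      rw [h2, one_pow]
    · rw [Units.val_pow_eq_pow_val, Units.val_mk0, map_pow, hi]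
  choose c hc1 hc2 using hroot
  have hcmul : ∀ g h, c (g * h) = c g * c h := by
    intro g h
    apply Units.ext
    apply ι.injective
    rw [hc2, Units.val_mul, map_mul, map_mul, hc2, hc2, Units.val_mul]
  let f : Gal(M/F) → Mˣ := fun g => Units.map (algebraMap F M : F →* M) (c g)
  have hf : groupCohomology.IsMulCocycle₁ f := by
    intro g h
    apply Units.ext
    change algebraMap F M ((c (g * h) : Fˣ) : F) = _
    rw [hcmul, Units.val_mul, map_mul, Units.val_mul]
    rw [mul_comm]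
    congr 1
    exact ((h : M ≃ₐ[F] M) |> fun _ => (g.commutes (c h : F)).symm)
  obtain ⟨β, hβ⟩ := groupCohomology.isMulCoboundary₁_of_isMulCocycle₁_of_aut_to_units f hf
  have hβ' : ∀ g : M ≃ₐ[F] M, g (β : M) = algebraMap F M (c g : F) * β := by
    intro g
    have h1 := hβ g
    rw [div_eq_iff_eq_mul] at h1
    have h2 := congrArg (fun z : Mˣ => (z : M)) h1
    exact h2
  have hfix : ∀ g : M ≃ₐ[F] M, g ((β : M) ^ n) = (β : M) ^ n := by
    intro g
    rw [map_pow, hβ' g, mul_pow, ← map_pow, ← Units.val_pow_eq_pow_val, hc1, Units.val_one,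
      map_one, one_mul]
  obtain ⟨b, hb⟩ := (IsGalois.mem_range_algebraMap_iff_fixed _).2 hfix
  refine ⟨β, b, β.ne_zero, ?_, hb.symm, fun g hg => ?_⟩
  · rintro rfl
    rw [map_zero] at hb
    exact pow_ne_zero n β.ne_zero hb.symm
  · have h1 := hβ' g
    rw [hg] at h1
    have h2 : algebraMap F M (c g : F) = 1 := by
      have h3 : algebraMap F M (c g : F) * β = 1 * β := by rw [← h1, one_mul]
      exact mul_right_cancel₀ β.ne_zero h3
    have h3 : (c g : F) = 1 := by
      apply (algebraMap F M).injective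
      rw [h2, map_one]
    apply Units.ext
    rw [← hc2 g, h3, map_one, Units.val_one]

/-- **Approximation.** -/
theorem exists_near {K F : Type} [Field K] [NumberField K] [Field F] [NumberField F] [Algebra K F]
    (v : HeightOneSpectrum (𝓞 K)) {N n : ℕ} (hN : N ≠ 0) (hn : 0 < n) {b : F} (hb : b ≠ 0) :
    ∃ a : F, a ≠ 0 ∧ (∀ u : HeightOneSpectrum (𝓞 F), u.under (𝓞 K) = v → u.valuation F a = 1) ∧
      ∀ u : HeightOneSpectrum (𝓞 F), u.under (𝓞 K) ≠ v → (N : 𝓞 F) ∈ u.asIdeal →
        u.valuation F (b / a - 1) < u.valuation F (n : F) ^ 2 := by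
  classical
  have hv0 : Ideal.absNorm v.asIdeal ≠ 0 := by
    rw [Ne, Ideal.absNorm_eq_zero_iff]
    exact v.ne_bot
  have hN1 : N * Ideal.absNorm v.asIdeal ≠ 0 := mul_ne_zero hN hv0
  set T := Pool.Agent.Q285.EX.pN F (N * Ideal.absNorm v.asIdeal) hN1 with hT
  have hTv : ∀ u : HeightOneSpectrum (𝓞 F), u.under (𝓞 K) = v → u ∈ T := by
    intro u hu
    rw [hT, Pool.Agent.Q285.EX.mem_pN, Nat.cast_mul]
    refine u.asIdeal.mul_mem_left _ ?_
    have h1 : ((Ideal.absNorm v.asIdeal : ℕ) : 𝓞 K) ∈ (u.under (𝓞 K)).asIdeal := by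
      rw [hu]
      exact Ideal.absNorm_mem _
    have h2 : algebraMap (𝓞 K) (𝓞 F) ((Ideal.absNorm v.asIdeal : ℕ) : 𝓞 K) ∈ u.asIdeal := h1
    rwa [map_natCast] at h2
  have hTN : ∀ u : HeightOneSpectrum (𝓞 F), (N : 𝓞 F) ∈ u.asIdeal → u ∈ T := by
    intro u hu
    rw [hT, Pool.Agent.Q285.EX.mem_pN, Nat.cast_mul]
    exact u.asIdeal.mul_mem_right _ hu
  -- the exponent
  have hex : ∃ e : ℕ, 0 < e ∧ ∀ u ∈ T, WithZero.exp (-(e : ℤ)) < u.valuation F b *
      u.valuation F (n : F) ^ 2 ∧ WithZero.exp (-(e : ℤ)) < u.valuation F b := by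
    have hpos : ∀ x : F, x ≠ 0 → ∀ u : HeightOneSpectrum (𝓞 F), ∃ k : ℕ,
        WithZero.exp (-(k : ℤ)) < u.valuation F x := by
      intro x hx u
      have h1 := Pool.Agent.Q125.AR.valuation_eq_exp (Units.mk0 x hx) u
      rw [Units.val_mk0] at h1
      refine ⟨(prin (Units.mk0 x hx) u).toNat + 1, ?_⟩
      rw [h1, WithZero.exp_lt_exp]
      push_cast
      have := Int.self_le_toNat (prin (Units.mk0 x hx) u)
      linarith
    have hnF : (n : F) ≠ 0 := Nat.cast_ne_zero.2 hn.ne'
    choose k hk using hpos b hb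
    choose l hl using hpos (b * (n : F) ^ 2) (mul_ne_zero hb (pow_ne_zero 2 hnF))
    refine ⟨∑ u ∈ T, (k u + l u) + 1, Nat.succ_pos _, fun u hu => ?_⟩
    have h1 : k u + l u ≤ ∑ u ∈ T, (k u + l u) :=
      Finset.single_le_sum (f := fun u => k u + l u) (fun _ _ => Nat.zero_le _) hu
    have h2 : ∀ j : ℕ, j ≤ k u + l u →
        WithZero.exp (-((∑ u ∈ T, (k u + l u) + 1 : ℕ) : ℤ)) ≤ WithZero.exp (-(j : ℤ)) := by
      intro j hj
      rw [WithZero.exp_le_exp]
      have h3 : (j : ℤ) ≤ ((∑ u ∈ T, (k u + l u) + 1 : ℕ) : ℤ) := by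
        have : j ≤ ∑ u ∈ T, (k u + l u) + 1 := by omega
        exact_mod_cast this
      linarith
    refine ⟨?_, ?_⟩
    · have h3 := (h2 (l u) (by omega)).trans_lt (hl u)
      rwa [map_mul, map_pow] at h3
    · exact (h2 (k u) (by omega)).trans_lt (hk u)
  obtain ⟨e, he0, he⟩ := hex
  obtain ⟨a, -, ha⟩ := Pool.Agent.Q285.EX.approx T
    (fun u => if u.under (𝓞 K) = v then 1 else b) e
  refine ⟨a, a.ne_zero, fun u hu => ?_, fun u hu huN => ?_⟩
  · have h1 := ha u (hTv u hu)
    rw [if_pos hu] at h1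
    have h2 : u.valuation F ((a : F) - 1) < u.valuation F (1 : F) := by
      rw [map_one]
      refine h1.trans_lt ?_
      rw [← WithZero.exp_zero, WithZero.exp_lt_exp]
      have : (0 : ℤ) < e := by exact_mod_cast he0
      linarith
    have h3 := Valuation.map_add_eq_of_lt_right (u.valuation F) h2
    rw [sub_add_cancel, map_one] at h3
    exact h3
  · have h1 := ha u (hTN u huN)
    rw [if_neg hu] at h1
    obtain ⟨h2, h3⟩ := he u (hTN u huN)
    have h4 : u.valuation F (a : F) = u.valuation F b := by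
      have h5 := Valuation.map_add_eq_of_lt_right (u.valuation F)
        (show u.valuation F ((a : F) - b) < u.valuation F b from h1.trans_lt h3)
      rwa [sub_add_cancel] at h5
    have h5 : b / (a : F) - 1 = - (((a : F) - b) / a) := by
      have := a.ne_zero
      field_simp
      ring
    have hb0 : u.valuation F b ≠ 0 := (Valuation.ne_zero_iff _).2 hb
    rw [h5, Valuation.map_neg, map_div₀, h4]
    rw [div_lt_iff₀ (zero_lt_iff.2 hb0)]
    rw [mul_comm]
    exact h1.trans_lt h2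

end Pool.Agent.H345.ED.CNDA
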