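import Pool.Agent.H345.ED.CNDA0
import Pool.Graph.R_pool_sql_team_seeded_3997aac3.Q53.EX.Desc0

/-!
# Project ED (helper500), part A1: the fields
-/

set_option autoImplicit false
set_option linter.unusedSectionVars false
set_option linter.deprecated false

namespace Pool.Agent.H345.ED.CNDA

open NumberField IsDedekindDomain Pool.Agent.Q5.BR Pool.Agent.Q92.AR Pool.Agent.Q20.EX
open Pool.Agent.Q53.EX (exists_gal)

/-- a Galois extension of `K` containing `M` and `M1` -/
theorem comb (K M M1 : Type) [Field K] [NumberField K] [Field M] [NumberField M] [Field M1]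
    [NumberField M1] [Algebra K M] [Algebra K M1] :
    ∃ (M2 : Type) (_ : Field M2) (_ : NumberField M2) (_ : Algebra K M2) (_ : IsGalois K M2)
    (_ : Algebra M M2) (_ : Algebra M1 M2), IsScalarTower K M M2 ∧ IsScalarTower K M1 M2 := by
  let Ω := AlgebraicClosure K
  let i : M →ₐ[K] Ω := IsAlgClosed.lift
  let j : M1 →ₐ[K] Ω := IsAlgClosed.lift
  let L : IntermediateField K Ω := i.fieldRange ⊔ j.fieldRange
  have hi : FiniteDimensional K i.fieldRange := by
    have h : FiniteDimensional K M := Module.Finite.of_restrictScalars_finite ℚ K M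
    exact LinearEquiv.finiteDimensional (AlgEquiv.ofInjectiveField i).toLinearEquiv
  have hj : FiniteDimensional K j.fieldRange := by
    have h : FiniteDimensional K M1 := Module.Finite.of_restrictScalars_finite ℚ K M1
    exact LinearEquiv.finiteDimensional (AlgEquiv.ofInjectiveField j).toLinearEquiv
  have hL : FiniteDimensional K L := IntermediateField.finiteDimensional_sup _ _
  have hNL : NumberField L := by
    have h2 : FiniteDimensional ℚ L := FiniteDimensional.trans ℚ K L
    have h3 : CharZero L := inferInstance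
    exact ⟨⟩
  obtain ⟨M2, _, hN2, _, _, _, hG⟩ := exists_gal K L
  let i' : M →ₐ[K] L := i.codRestrict L.toSubalgebra
    (fun x => (le_sup_left : i.fieldRange ≤ L) ⟨x, rfl⟩)
  let j' : M1 →ₐ[K] L := j.codRestrict L.toSubalgebra
    (fun x => (le_sup_right : j.fieldRange ≤ L) ⟨x, rfl⟩)
  let a : Algebra M M2 := ((algebraMap L M2).comp (i' : M →+* L)).toAlgebra
  let b : Algebra M1 M2 := ((algebraMap L M2).comp (j' : M1 →+* L)).toAlgebra
  refine ⟨M2, inferInstance, hN2, inferInstance, hG, a, b, ?_, ?_⟩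
  · refine IsScalarTower.of_algebraMap_eq fun x => ?_
    change algebraMap K M2 x = algebraMap L M2 (i' (algebraMap K M x))
    rw [AlgHom.commutes, ← IsScalarTower.algebraMap_apply]
  · refine IsScalarTower.of_algebraMap_eq fun x => ?_
    change algebraMap K M2 x = algebraMap L M2 (j' (algebraMap K M1 x))
    rw [AlgHom.commutes, ← IsScalarTower.algebraMap_apply]

open Polynomial in
/-- a Galois extension of `K` containing `M` and an `n`-th root of `a` -/
theorem add_root (K M : Type) [Field K] [NumberField K] [Field M] [NumberField M] [Algebra K M]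
    {n : ℕ} (hn : 0 < n) (a : M) :
    ∃ (Ω : Type) (_ : Field Ω) (_ : NumberField Ω) (_ : Algebra K Ω) (_ : Algebra M Ω)
    (_ : IsScalarTower K M Ω) (_ : IsGalois K Ω) (s : Ω), s ^ n = algebraMap M Ω a := by
  let P : M[X] := X ^ n - C a
  let L := P.SplittingField
  have hfd : FiniteDimensional M L := inferInstance
  have hNL : NumberField L := by
    have h1 : FiniteDimensional ℚ L := FiniteDimensional.trans ℚ M L
    have h2 : CharZero L := charZero_of_injective_algebraMap (algebraMap M L).injective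
    exact ⟨⟩
  obtain ⟨s, hs⟩ : ∃ s : L, s ^ n = algebraMap M L a := by
    have h1 : P.degree ≠ 0 := by
      rw [degree_X_pow_sub_C hn]
      exact_mod_cast hn.ne'
    have hsp : (P.map (algebraMap M L)).Splits := SplittingField.splits P
    obtain ⟨s, hs⟩ := hsp.exists_eval_eq_zero (by rwa [degree_map])
    refine ⟨s, ?_⟩
    have h2 : s ^ n - algebraMap M L a = 0 := by
      have h3 := hs
      rw [eval_map_algebraMap] at h3
      simpa [P] using h3
    exact sub_eq_zero.1 h2
  obtain ⟨Ω, _, hNΩ, _, _, _, hG⟩ := exists_gal K L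
  let aM : Algebra M Ω := ((algebraMap L Ω).comp (algebraMap M L)).toAlgebra
  have hT : IsScalarTower K M Ω := by
    refine IsScalarTower.of_algebraMap_eq fun x => ?_
    change algebraMap K Ω x = algebraMap L Ω (algebraMap M L (algebraMap K M x))
    rw [← IsScalarTower.algebraMap_apply K M L, ← IsScalarTower.algebraMap_apply K L Ω]
  refine ⟨Ω, inferInstance, hNΩ, inferInstance, aM, hT, hG, algebraMap L Ω s, ?_⟩
  rw [← map_pow, hs]
  rfl

/-- **The fields.** -/
theorem exists_big (K M : Type) [Field K] [NumberField K] [Field M] [NumberField M] [Algebra K M]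
    [IsGalois K M] (ψ : (M ≃ₐ[K] M) →* ℂˣ) {n : ℕ} (hn : 0 < n) (hψ : ∀ g, ψ g ^ n = 1)
    (v : HeightOneSpectrum (𝓞 K)) {N : ℕ} (hN : N ≠ 0) :
    ∃ (F Ω : Type) (_ : Field F) (_ : NumberField F) (_ : Field Ω) (_ : NumberField Ω)
    (_ : Algebra K F) (_ : Algebra K Ω) (_ : Algebra F Ω) (_ : Algebra M Ω)
    (_ : IsScalarTower K F Ω) (_ : IsScalarTower K M Ω) (_ : IsGalois K Ω) (ζ a b : F) (r s : Ω),
    IsPrimitiveRoot ζ n ∧ (∀ f g : F →ₐ[K] Ω, f ζ = g ζ → f = g) ∧ a ≠ 0 ∧ b ≠ 0 ∧
    r ^ n = algebraMap F Ω b ∧ s ^ n = algebraMap F Ω a ∧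
    (∀ u : HeightOneSpectrum (𝓞 F), u.under (𝓞 K) = v → u.valuation F a = 1) ∧
    (∀ u : HeightOneSpectrum (𝓞 F), u.under (𝓞 K) ≠ v → (N : 𝓞 F) ∈ u.asIdeal →
        u.valuation F (b / a - 1) < u.valuation F (n : F) ^ 2) ∧
    ∀ g : Ω ≃ₐ[K] Ω, (∀ x : F, g (algebraMap F Ω x) = algebraMap F Ω x) → g r = r →
      ψ (AlgEquiv.restrictNormal g M) = 1 := by
  have hnz : NeZero n := ⟨hn.ne'⟩
  have hnzK : NeZero (n : K) := NeZero.charZero
  let F := CyclotomicField n K
  have hNF : NumberField F := IsCyclotomicExtension.numberField {n} K F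
  obtain ⟨Ω0, _, _, _, _, _, _, hT1, hT2⟩ := comb K M F
  have hG : IsGalois F Ω0 := IsGalois.tower_top_of_isGalois K F Ω0
  have hfd0 : FiniteDimensional K Ω0 := Module.Finite.of_restrictScalars_finite ℚ K Ω0
  have hfdK : FiniteDimensional F Ω0 := Module.Finite.of_restrictScalars_finite K F Ω0
  let ζ : F := IsCyclotomicExtension.zeta n K F
  have hζ : IsPrimitiveRoot ζ n := IsCyclotomicExtension.zeta_spec n K F
  let ψ0 : (Ω0 ≃ₐ[F] Ω0) →* ℂˣ := (ψ.comp (AlgEquiv.restrictNormalHom (K₁ := Ω0) M)).comp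
    (rs K F Ω0)
  obtain ⟨r0, b, hr0, hb0, hrb, hr⟩ := kummer hn hζ ψ0 (fun g => hψ _)
  obtain ⟨a, ha0, ha1, ha2⟩ := exists_near (K := K) (F := F) v hN hn hb0
  obtain ⟨Ω, _, _, _, _, hT3, hG2, s, hs⟩ := add_root K Ω0 hn (algebraMap F Ω0 a)
  let aM : Algebra M Ω := ((algebraMap Ω0 Ω).comp (algebraMap M Ω0)).toAlgebra
  let aF : Algebra F Ω := ((algebraMap Ω0 Ω).comp (algebraMap F Ω0)).toAlgebra
  have hTM : IsScalarTower K M Ω := by
    refine IsScalarTower.of_algebraMap_eq fun x => ?_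
    change algebraMap K Ω x = algebraMap Ω0 Ω (algebraMap M Ω0 (algebraMap K M x))
    rw [← IsScalarTower.algebraMap_apply K M Ω0, ← IsScalarTower.algebraMap_apply K Ω0 Ω]
  have hTF : IsScalarTower K F Ω := by
    refine IsScalarTower.of_algebraMap_eq fun x => ?_
    change algebraMap K Ω x = algebraMap Ω0 Ω (algebraMap F Ω0 (algebraMap K F x))
    rw [← IsScalarTower.algebraMap_apply K F Ω0, ← IsScalarTower.algebraMap_apply K Ω0 Ω]
  refine ⟨F, Ω, inferInstance, hNF, inferInstance, inferInstance, inferInstance, inferInstance,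
    aF, aM, hTF, hTM, hG2, ζ, a, b, algebraMap Ω0 Ω r0, s, hζ, ?_, ha0, hb0, ?_, ?_, ha1, ha2, ?_⟩
  · intro f g hfg
    exact (hζ.powerBasis K).algHom_ext (by rw [IsPrimitiveRoot.powerBasis_gen]; exact hfg)
  · rw [← map_pow, hrb]
    rfl
  · rw [hs]
    rfl
  · intro g hg hgr
    let g0 : Ω0 ≃ₐ[K] Ω0 := AlgEquiv.restrictNormal g Ω0
    have hg0 : ∀ x : Ω0, algebraMap Ω0 Ω (g0 x) = g (algebraMap Ω0 Ω x) := fun x =>
      AlgEquiv.restrictNormal_commutes g Ω0 x
    have hg0F : ∀ x : F, g0 (algebraMap F Ω0 x) = algebraMap F Ω0 x := by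
      intro x
      apply (algebraMap Ω0 Ω).injective
      rw [hg0]
      exact hg x
    let g1 : Ω0 ≃ₐ[F] Ω0 := { (g0 : Ω0 ≃ₐ[K] Ω0) with commutes' := hg0F }
    have h1 : g1 r0 = r0 := by
      apply (algebraMap Ω0 Ω).injective
      change algebraMap Ω0 Ω (g0 r0) = _
      rw [hg0, hgr]
    have h2 := hr g1 h1
    have h3 : AlgEquiv.restrictNormal g M = AlgEquiv.restrictNormal g0 M := by
      ext x
      apply (algebraMap M Ω).injective
      rw [AlgEquiv.restrictNormal_commutes]
      change g (algebraMap Ω0 Ω (algebraMap M Ω0 x)) =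
        algebraMap Ω0 Ω (algebraMap M Ω0 (AlgEquiv.restrictNormal g0 M x))
      rw [AlgEquiv.restrictNormal_commutes, hg0]
    rw [h3]
    exact h2

end Pool.Agent.H345.ED.CNDA
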